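import Pool.Agent.L7h86.GF.Rate

/-!
# The algebras over an algebraically closed subfield are dense
-/

set_option autoImplicit false

namespace Pool.Agent.L7h86.GF

open Pool.Agent.H826R3.SM Pool.Agent.TH671.DU Pool.Agent.N86.SQ Pool.Agent.L7h86.PS
open scoped TensorProduct Topology
open MvPolynomial Filter

/-- the fibre of a free algebra over a point -/
theorem exists_fibre {R L k : Type} [CommRing R] [CommRing L] [Algebra R L] {d : ℕ}
    (b : Module.Basis (Fin d) R L) [Field k] (ρ : R →+* k) :
    ∃ (E : Type) (_ : CommRing E) (_ : Algebra k E) (c : Module.Basis (Fin d) k E) (π : L →+* E),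
      (∀ i, π (b i) = c i) ∧ (∀ x i, c.repr (π x) i = ρ (b.repr x i)) ∧
      ∀ r, π (algebraMap R L r) = algebraMap k E (ρ r) := by
  let _ : Algebra R k := ρ.toAlgebra
  refine ⟨k ⊗[R] L, inferInstance, inferInstance, b.baseChange k,
    (Algebra.TensorProduct.includeRight (R := R) (A := k) (B := L)).toRingHom, fun i => ?_,
    fun x i => ?_, fun r => ?_⟩
  · rw [Module.Basis.baseChange_apply]
    rfl
  · change (b.baseChange k).repr ((1 : k) ⊗ₜ[R] x) i = _
    rw [Module.Basis.baseChange_repr_tmul, Algebra.smul_def, mul_one]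
    rfl
  · change (1 : k) ⊗ₜ[R] (algebraMap R L r) = algebraMap k (k ⊗[R] L) (ρ r)
    rw [Algebra.TensorProduct.algebraMap_apply, Algebra.algebraMap_self, RingHom.id_apply,
      Algebra.algebraMap_eq_smul_one, ← TensorProduct.smul_tmul, Algebra.smul_def, mul_one]
    rfl

section lattice

variable {K : Type} [Field K] {A : Type} [CommRing A] [Algebra K A] {d : ℕ}
  (c : Module.Basis (Fin d) K A)

/-- the parameters of a basis over a ring -/
noncomputable def parR {R L : Type} [CommRing R] [CommRing L] [Algebra R L] {d : ℕ}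
    (b : Module.Basis (Fin d) R L) : PIdx d → R :=
  Sum.elim (fun z => b.repr (b z.1 * b z.2.1) z.2.2) (fun i => b.repr 1 i)

variable {k : Type} [Field k] [Algebra k K]

/-- the lattice of the elements with coordinates in a subring which contains the parameters -/
noncomputable def lat (R : Subalgebra k K) (h : ∀ z, par c z ∈ R) : Subalgebra R A where
  carrier := {x | ∀ i, c.repr x i ∈ R}
  mul_mem' := by
    intro x y hx hy i
    have h1 : x * y = ∑ j, ∑ l, (c.repr x j * c.repr y l) • (c j * c l) := by
      conv_lhs => rw [← c.sum_repr x, ← c.sum_repr y, Finset.sum_mul_sum]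
      refine Finset.sum_congr rfl fun j _ => Finset.sum_congr rfl fun l _ => ?_
      rw [smul_mul_smul_comm]
    rw [h1, map_sum, Finsupp.finsetSum_apply]
    refine Subalgebra.sum_mem _ fun j _ => ?_
    rw [map_sum, Finsupp.finsetSum_apply]
    refine Subalgebra.sum_mem _ fun l _ => ?_
    rw [map_smul, Finsupp.smul_apply, smul_eq_mul]
    exact R.mul_mem (R.mul_mem (hx j) (hy l)) (h (Sum.inl (j, l, i)))
  add_mem' := by
    intro x y hx hy i
    rw [map_add, Finsupp.add_apply]
    exact R.add_mem (hx i) (hy i)
  algebraMap_mem' := by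
    intro r i
    have h1 : algebraMap R A r = (r : K) • (1 : A) := by
      rw [Algebra.smul_def, mul_one]
      rfl
    rw [h1, map_smul, Finsupp.smul_apply, smul_eq_mul]
    exact R.mul_mem r.2 (h (Sum.inr i))

/-- the basis of the lattice -/
noncomputable def latB (R : Subalgebra k K) (h : ∀ z, par c z ∈ R) :
    Module.Basis (Fin d) R (lat c R h) :=
  Module.Basis.ofEquivFun
    { toFun := fun x i => ⟨c.repr (x : A) i, x.2 i⟩
      invFun := fun v => ⟨∑ i, (v i : K) • c i, fun i => by
        rw [c.repr_sum_self]
        exact (v i).2⟩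
      left_inv := fun x => by
        apply Subtype.ext
        exact c.sum_repr (x : A)
      right_inv := fun v => by
        funext i
        apply Subtype.ext
        change c.repr (∑ i, (v i : K) • c i) i = _
        rw [c.repr_sum_self]
      map_add' := fun x y => by
        funext i
        apply Subtype.ext
        change c.repr ((x : A) + (y : A)) i = _
        rw [map_add]
        rfl
      map_smul' := fun r x => by
        funext i
        apply Subtype.ext
        change c.repr ((r : K) • (x : A)) i = _
        rw [map_smul]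
        rfl }

theorem latB_repr (R : Subalgebra k K) (h : ∀ z, par c z ∈ R) (x : lat c R h) (i : Fin d) :
    (((latB c R h).repr x i : R) : K) = c.repr (x : A) i := by
  have h1 := Module.Basis.ofEquivFun_repr_apply
    (e := (Module.Basis.equivFun (latB c R h))) (x := x) (i := i)
  rfl

theorem latB_apply (R : Subalgebra k K) (h : ∀ z, par c z ∈ R) (i : Fin d) :
    ((latB c R h i : lat c R h) : A) = c i := by
  apply c.repr.injective
  ext j
  rw [← latB_repr, Module.Basis.repr_self, Module.Basis.repr_self, Finsupp.single_apply,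
    Finsupp.single_apply]
  split_ifs <;> rfl

theorem parR_latB (R : Subalgebra k K) (h : ∀ z, par c z ∈ R) (z : PIdx d) :
    ((parR (latB c R h) z : R) : K) = par c z := by
  rcases z with ⟨i, j, m⟩ | i
  · change (((latB c R h).repr (latB c R h i * latB c R h j) m : R) : K) = c.repr (c i * c j) m
    rw [latB_repr]
    congr 3
    change ((latB c R h i : lat c R h) : A) * ((latB c R h j : lat c R h) : A) = _
    rw [latB_apply, latB_apply]
  · change (((latB c R h).repr 1 i : R) : K) = c.repr 1 i
    rw [latB_repr]
    rfl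

end lattice

section comp

variable {k K : Type} [Field k] [Field K] [Algebra k K] {ι : Type}

/-- the components of a polynomial with respect to a basis of the extension -/
noncomputable def cmp {J : Type} (β : Module.Basis J k K) (Q : MvPolynomial ι K) (j : J) :
    MvPolynomial ι k :=
  ∑ s ∈ Q.support, monomial s (β.repr (coeff s Q) j)

theorem eval_cmp {J : Type} (β : Module.Basis J k K) (Q : MvPolynomial ι K) (j : J) (y : ι → k) :
    eval y (cmp β Q j) = β.repr (eval (fun i => algebraMap k K (y i)) Q) j := by
  unfold cmp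
  rw [map_sum, eval_eq, map_sum, Finsupp.finsetSum_apply]
  refine Finset.sum_congr rfl fun s _ => ?_
  rw [eval_monomial]
  have h1 : coeff s Q * ∏ i ∈ s.support, algebraMap k K (y i) ^ s i =
      (∏ i ∈ s.support, y i ^ s i) • coeff s Q := by
    rw [Algebra.smul_def, map_prod, mul_comm]
    congr 1
    refine Finset.prod_congr rfl fun i _ => ?_
    rw [map_pow]
  rw [h1, map_smul, Finsupp.smul_apply, smul_eq_mul, mul_comm, Finsupp.prod]

theorem exists_cmp {J : Type} (β : Module.Basis J k K) (Q : MvPolynomial ι K) (x : ι → K)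
    (hQ : eval x Q ≠ 0) : ∃ j, aeval x (cmp β Q j) ≠ 0 := by
  classical
  by_contra hcon
  push Not at hcon
  apply hQ
  let S : Finset J := Q.support.biUnion fun s => (β.repr (coeff s Q)).support
  have h1 : ∀ s ∈ Q.support, coeff s Q = ∑ j ∈ S, β.repr (coeff s Q) j • β j := by
    intro s hs
    conv_lhs => rw [← β.linearCombination_repr (coeff s Q), Finsupp.linearCombination_apply,
      Finsupp.sum]
    refine Finset.sum_subset (Finset.subset_biUnion_of_mem (fun s => (β.repr (coeff s Q)).support)
      hs) fun j _ hj => ?_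
    rw [Finsupp.notMem_support_iff.1 hj, zero_smul]
  have h2 : eval x Q = ∑ j ∈ S, β j * aeval x (cmp β Q j) := by
    rw [eval_eq]
    have h3 : ∀ j, β j * aeval x (cmp β Q j) = ∑ s ∈ Q.support,
        (β.repr (coeff s Q) j • β j) * ∏ i ∈ s.support, x i ^ s i := by
      intro j
      unfold cmp
      rw [map_sum, Finset.mul_sum]
      refine Finset.sum_congr rfl fun s _ => ?_
      rw [aeval_monomial, Algebra.smul_def, Finsupp.prod]
      ring
    simp only [h3]
    rw [Finset.sum_comm]
    refine Finset.sum_congr rfl fun s hs => ?_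
    rw [← Finset.sum_mul, ← h1 s hs]
  rw [h2]
  refine Finset.sum_eq_zero fun j _ => ?_
  rw [hcon, mul_zero]

end comp

theorem par_baseChange {k K E : Type} [Field k] [Field K] [Algebra k K] [CommRing E] [Algebra k E]
    {d : ℕ} (c : Module.Basis (Fin d) k E) (z : PIdx d) :
    par (c.baseChange K) z = algebraMap k K (par c z) := by
  rcases z with ⟨i, j, m⟩ | i
  · change (c.baseChange K).repr ((c.baseChange K) i * (c.baseChange K) j) m =
      algebraMap k K (c.repr (c i * c j) m)
    rw [Module.Basis.baseChange_apply, Module.Basis.baseChange_apply,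
      Algebra.TensorProduct.tmul_mul_tmul, mul_one, Module.Basis.baseChange_repr_tmul,
      Algebra.smul_def, mul_one]
  · change (c.baseChange K).repr ((1 : K) ⊗ₜ[k] (1 : E)) i = algebraMap k K (c.repr 1 i)
    rw [Module.Basis.baseChange_repr_tmul, Algebra.smul_def, mul_one]

variable {k K : Type} [Field k] [IsAlgClosed k] [Field K] [IsAlgClosed K] [Algebra k K]

/-- `E` is the base change of a local algebra over `k` -/
def IsBC (k : Type) [Field k] {K : Type} [Field K] [Algebra k K] (E : Type) [CommRing E]
    [Algebra K E] : Prop :=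
  ∃ (E₀ : Type) (_ : CommRing E₀) (_ : Algebra k E₀), Module.Finite k E₀ ∧ IsLocalRing E₀ ∧
    Nonempty (E ≃ₐ[K] K ⊗[k] E₀)

/-- **The local algebras over `K` lie in the closure of those over `k`.** -/
theorem inClosure_baseChange (A : Type) [CommRing A] [Algebra K A] [Module.Finite K A]
    [IsLocalRing A] : InClosure K (fun E _ _ => IsBC k (K := K) E) A := by
  classical
  let c := Module.finBasis K A
  refine ⟨_, c, fun Q hQ => ?_⟩
  let β := Module.Basis.ofVectorSpace k K
  obtain ⟨j, hj⟩ := exists_cmp β Q (par c) hQ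
  choose lam hlam using fun i => scalar_of_local (F := K) (c i)
  let T : Set K := Set.range (par c) ∪ (Set.range lam ∪ {(aeval (par c) (cmp β Q j))⁻¹})
  have hT : T.Finite := (Set.finite_range _).union ((Set.finite_range _).union
    (Set.finite_singleton _))
  obtain ⟨R, hTR, ⟨ρ⟩⟩ := exists_point (k := k) T hT
  have hR : ∀ z, par c z ∈ R := fun z => hTR (Or.inl ⟨z, rfl⟩)
  have hlR : ∀ i, lam i ∈ R := fun i => hTR (Or.inr (Or.inl ⟨i, rfl⟩))
  have hiR : (aeval (par c) (cmp β Q j))⁻¹ ∈ R := hTR (Or.inr (Or.inr rfl))
  let b := latB c R hR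
  obtain ⟨E, _, _, c', π, hπ1, hπ2, hπ3⟩ := exists_fibre b ρ.toRingHom
  have hpar : ∀ z, par c' z = ρ (parR b z) := by
    intro z
    rcases z with ⟨i, l, m⟩ | i
    · change c'.repr (c' i * c' l) m = ρ (b.repr (b i * b l) m)
      rw [← hπ1, ← hπ1, ← map_mul]
      exact hπ2 _ _
    · change c'.repr 1 i = ρ (b.repr 1 i)
      rw [← map_one π]
      exact hπ2 _ _
  have hcoe : ∀ z, ((parR b z : R) : K) = par c z := parR_latB c R hR
  -- the value of the component
  have hval : eval (par c') (cmp β Q j) ≠ 0 := by
    have h1 : eval (par c') (cmp β Q j) = ρ (aeval (parR b) (cmp β Q j)) := by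
      have h2 : (par c') = fun z => ρ (parR b z) := funext hpar
      rw [h2, ← MvPolynomial.aeval_eq_eval, ← MvPolynomial.comp_aeval_apply]
    have h3 : ((aeval (parR b) (cmp β Q j) : R) : K) = aeval (par c) (cmp β Q j) := by
      have h4 : par c = fun z => R.val (parR b z) := funext fun z => (hcoe z).symm
      rw [h4, ← MvPolynomial.comp_aeval_apply]
      rfl
    have h5 : aeval (parR b) (cmp β Q j) * (⟨_, hiR⟩ : R) = 1 := by
      apply Subtype.ext
      change ((aeval (parR b) (cmp β Q j) : R) : K) * (aeval (par c) (cmp β Q j))⁻¹ = 1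
      rw [h3, mul_inv_cancel₀ hj]
    intro h0
    rw [h1] at h0
    have h6 := congrArg ρ h5
    rw [map_mul, h0, zero_mul, map_one] at h6
    exact zero_ne_one h6
  have hd : Module.finrank k E = Module.finrank K A := by
    rw [Module.finrank_eq_card_basis c', Fintype.card_fin]
  have hfinE : Module.Finite k E := Module.Finite.of_basis c'
  have hntE : Nontrivial E := Module.nontrivial_of_finrank_pos (R := k) (by
    rw [hd]
    exact Module.finrank_pos)
  have hloc : IsLocalRing E := by
    have hnil : ∀ i, IsNilpotent (c' i - algebraMap k E (ρ ⟨lam i, hlR i⟩)) := by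
      intro i
      obtain ⟨n, hn⟩ := hlam i
      refine ⟨n, ?_⟩
      have h1 : (b i - algebraMap R (lat c R hR) ⟨lam i, hlR i⟩) ^ n = 0 := by
        apply Subtype.ext
        change (((b i : lat c R hR) : A) - algebraMap K A (lam i)) ^ n = 0
        rw [show ((b i : lat c R hR) : A) = c i from latB_apply c R hR i, hn]
      have h2 := congrArg π h1
      rw [map_pow, map_sub, hπ1, hπ3, map_zero] at h2
      exact h2
    refine local_of_scalar (F := k) fun x => ?_
    refine ⟨∑ i, c'.repr x i * ρ ⟨lam i, hlR i⟩, ?_⟩
    have h1 : x - algebraMap k E (∑ i, c'.repr x i * ρ ⟨lam i, hlR i⟩) =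
        ∑ i, c'.repr x i • (c' i - algebraMap k E (ρ ⟨lam i, hlR i⟩)) := by
      conv_lhs => rw [← c'.sum_repr x]
      rw [map_sum, ← Finset.sum_sub_distrib]
      refine Finset.sum_congr rfl fun i _ => ?_
      rw [c'.sum_repr x, smul_sub, map_mul, Algebra.smul_def, Algebra.smul_def]
    rw [h1]
    have h2 : ∑ i, c'.repr x i • (c' i - algebraMap k E (ρ ⟨lam i, hlR i⟩)) ∈ nilradical E :=
      Ideal.sum_mem _ fun i _ => ((nilradical E).restrictScalars k).smul_mem _ (hnil i)
    exact h2
  refine ⟨K ⊗[k] E, inferInstance, inferInstance, c'.baseChange K,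
    ⟨E, inferInstance, inferInstance, hfinE, hloc, ⟨AlgEquiv.refl⟩⟩, ?_⟩
  intro h0
  apply hval
  rw [eval_cmp]
  have h1 : par (c'.baseChange K) = fun z => algebraMap k K (par c' z) :=
    funext fun z => par_baseChange c' z
  rw [← h1, h0, map_zero, Finsupp.zero_apply]

/-- **Bounds over both fields.** -/
theorem bounds_iff (k K : Type) [Field k] [IsAlgClosed k] [Field K] [IsAlgClosed K] [Algebra k K]
    (d : ℕ) (x : ℝ) :
    (∀ (A : Type) [CommRing A] [Algebra k A] [Module.Finite k A] [IsLocalRing A],
      Module.finrank k A = d → rate k A ≤ x) ↔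
    ∀ (A : Type) [CommRing A] [Algebra K A] [Module.Finite K A] [IsLocalRing A],
      Module.finrank K A = d → rate K A ≤ x := by
  constructor
  · intro h A _ _ _ _ hd
    refine rate_le_of_closure (inClosure_baseChange (k := k) A) x fun E _ _ _ _ hE hdE => ?_
    obtain ⟨E₀, _, _, hfin, hloc, ⟨e⟩⟩ := hE
    have h1 : Module.finrank k E₀ = d := by
      rw [← hd, ← hdE, e.toLinearEquiv.finrank_eq, Module.finrank_baseChange]
    have hnt := nontrivial_baseChange k K E₀
    rw [TH671.DU.rate_congr e]
    exact (rate_baseChange_le k K E₀).trans (h E₀ h1)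
  · intro h A _ _ _ _ hd
    have := local_baseChange (k := k) (K := K) A
    rw [← rate_eq_baseChange (K := K) A]
    exact h (K ⊗[k] A) (by rw [Module.finrank_baseChange, hd])

end Pool.Agent.L7h86.GF
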