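import Pool.Agent.L7h86.GF.Spec

/-!
# Unions of lines after an extension of the ground field
-/

set_option autoImplicit false

namespace Pool.Agent.L7h86.GF

open Pool.Agent.H826R3.SM Pool.Agent.TH671.DU Pool.Agent.N86.SQ Pool.Agent.L7h86.PS
open scoped TensorProduct
open MvPolynomial

section form

variable {k A : Type} [Field k] [CommRing A] [Algebra k A] {D W : ℕ}
  (b : Module.Basis (Fin D) k A) {σ : Type} (a : σ → A) (p : Fin W → σ → k)

/-- the vanishing condition in terms of coefficients -/
theorem lines_coeff (h : ∀ M : MvPolynomial σ k,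
      (∀ w e, eval (p w) (homogeneousComponent e M) = 0) → aeval a M = 0) (e : ℕ) (i : Fin D) :
    ∃ c : Fin W → k, ∀ s : σ →₀ ℕ, s.degree = e →
      b.repr (aeval a (monomial s (1 : k))) i = ∑ w, c w * eval (p w) (monomial s 1) := by
  let L : Fin W → (MvPolynomial σ k →ₗ[k] k) := fun w =>
    (aeval (p w) : MvPolynomial σ k →ₐ[k] k).toLinearMap ∘ₗ homogeneousComponent e
  let f : MvPolynomial σ k →ₗ[k] k :=
    b.coord i ∘ₗ (aeval a : MvPolynomial σ k →ₐ[k] A).toLinearMap ∘ₗ homogeneousComponent e
  have h1 : f ∈ Submodule.span k (Set.range L) := by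
    refine mem_span_of_iInf_ker_le_ker fun M hM => ?_
    rw [LinearMap.mem_ker]
    have h2 : aeval a (homogeneousComponent e M) = 0 := by
      refine h _ fun w e' => ?_
      rw [homogeneousComponent_of_mem (homogeneousComponent_isHomogeneous e M)]
      split_ifs with h3
      · have h4 := (Submodule.mem_iInf _).1 hM w
        rw [LinearMap.mem_ker] at h4
        change aeval (p w) (homogeneousComponent e M) = 0 at h4
        rwa [MvPolynomial.aeval_eq_eval] at h4
      · exact map_zero _
    change b.coord i (aeval a (homogeneousComponent e M)) = 0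
    rw [h2, map_zero]
  obtain ⟨c, hc⟩ := (Submodule.mem_span_range_iff_exists_fun k).1 h1
  refine ⟨c, fun s hs => ?_⟩
  have h2 := LinearMap.congr_fun hc (monomial s 1)
  have h3 : homogeneousComponent e (monomial s (1 : k)) = monomial s 1 := by
    rw [homogeneousComponent_of_mem (n := e)]
    · rw [if_pos rfl]
    · rw [mem_homogeneousSubmodule]
      exact isHomogeneous_monomial _ hs
  rw [LinearMap.sum_apply] at h2
  have h4 : f (monomial s 1) = b.repr (aeval a (monomial s (1 : k))) i := by
    change b.coord i (aeval a (homogeneousComponent e (monomial s (1 : k)))) = _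
    rw [h3]
    rfl
  rw [← h4, ← h2]
  refine Finset.sum_congr rfl fun w _ => ?_
  rw [LinearMap.smul_apply, smul_eq_mul]
  congr 1
  change aeval (p w) (homogeneousComponent e (monomial s (1 : k))) = _
  rw [h3, MvPolynomial.aeval_eq_eval]

theorem lines_of_coeff (E : ℕ) (hE : ∀ s : σ →₀ ℕ, E ≤ s.degree → aeval a (monomial s (1 : k)) = 0)
    (h : ∀ e < E, ∀ i : Fin D, ∃ c : Fin W → k, ∀ s : σ →₀ ℕ, s.degree = e →
      b.repr (aeval a (monomial s (1 : k))) i = ∑ w, c w * eval (p w) (monomial s 1))
    (M : MvPolynomial σ k) (hM : ∀ w e, eval (p w) (homogeneousComponent e M) = 0) :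
    aeval a M = 0 := by
  classical
  rw [← sum_homogeneousComponent M, map_sum]
  refine Finset.sum_eq_zero fun e _ => ?_
  set N := homogeneousComponent e M with hN
  have hNh : N.IsHomogeneous e := homogeneousComponent_isHomogeneous e M
  have hsum : N = ∑ s ∈ N.support, coeff s N • monomial s (1 : k) := by
    conv_lhs => rw [N.as_sum]
    refine Finset.sum_congr rfl fun s _ => ?_
    rw [smul_monomial, smul_eq_mul, mul_one]
  have hdeg : ∀ s ∈ N.support, s.degree = e := by
    intro s hs
    rw [mem_support_iff] at hs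
    rw [Finsupp.degree_eq_weight_one]
    exact hNh hs
  rcases Nat.lt_or_ge e E with he | he
  · apply b.repr.injective
    rw [map_zero]
    ext i
    rw [Finsupp.zero_apply]
    obtain ⟨c, hc⟩ := h e he i
    have h1 : b.repr (aeval a N) i = ∑ w, c w * eval (p w) N := by
      rw [hsum, map_sum, map_sum, Finsupp.finsetSum_apply]
      have h2 : ∀ w, eval (p w) (∑ s ∈ N.support, coeff s N • monomial s (1 : k)) =
          ∑ s ∈ N.support, coeff s N * eval (p w) (monomial s 1) := by
        intro w
        rw [map_sum]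
        refine Finset.sum_congr rfl fun s _ => ?_
        rw [smul_eval]
      simp only [h2]
      simp only [Finset.mul_sum]
      rw [Finset.sum_comm]
      refine Finset.sum_congr rfl fun s hs => ?_
      rw [map_smul, map_smul, Finsupp.smul_apply, hc s (hdeg s hs), smul_eq_mul, Finset.mul_sum]
      refine Finset.sum_congr rfl fun w _ => ?_
      ring
    rw [h1]
    refine Finset.sum_eq_zero fun w _ => ?_
    rw [hN, hM w e, mul_zero]
  · rw [hsum, map_sum]
    refine Finset.sum_eq_zero fun s hs => ?_
    rw [map_smul, hE s (by rw [hdeg s hs]; exact he), smul_zero]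

end form

theorem aeval_monomial_mem {k A σ : Type} [Field k] [CommRing A] [Algebra k A] (a : σ → A) :
    ∀ (e : ℕ) (s : σ →₀ ℕ), s.degree = e →
      aeval a (monomial s (1 : k)) ∈ Ideal.span (Set.range a) ^ e := by
  classical
  intro e
  induction e with
  | zero =>
    intro s _
    rw [pow_zero, Ideal.one_eq_top]
    trivial
  | succ e ih =>
    intro s hs
    have hs0 : s ≠ 0 := by
      rintro rfl
      rw [map_zero] at hs
      omega
    obtain ⟨v, hv⟩ := Finsupp.ne_iff.1 hs0
    have hv1 : Finsupp.single v 1 ≤ s := by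
      rw [Finsupp.single_le_iff]
      rw [Finsupp.zero_apply] at hv
      omega
    have hs' : s = Finsupp.single v 1 + (s - Finsupp.single v 1) :=
      (add_tsub_cancel_of_le hv1).symm
    have hdeg : (s - Finsupp.single v 1).degree = e := by
      have h2 := congrArg Finsupp.degree hs'
      rw [map_add, Finsupp.degree_single] at h2
      omega
    have h5 : monomial s (1 : k) = X v * monomial (s - Finsupp.single v 1) (1 : k) := by
      rw [X, monomial_mul, mul_one, ← hs']
    rw [h5, map_mul, aeval_X, pow_succ']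
    exact Ideal.mul_mem_mul (Ideal.subset_span ⟨v, rfl⟩) (ih _ hdeg)

/-- nilpotent elements generate a nilpotent ideal -/
theorem exists_vanish {k A σ : Type} [Field k] [CommRing A] [Algebra k A] [Finite σ] (a : σ → A)
    (ha : ∀ v, IsNilpotent (a v)) : ∃ E : ℕ, ∀ s : σ →₀ ℕ, E ≤ s.degree →
      aeval a (monomial s (1 : k)) = 0 := by
  have hfg : (Ideal.span (Set.range a)).FG :=
    ⟨(Set.finite_range a).toFinset, by rw [Set.Finite.coe_toFinset]⟩
  have h1 : Ideal.span (Set.range a) ≤ nilradical A := by
    rw [Ideal.span_le]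
    rintro _ ⟨v, rfl⟩
    exact ha v
  obtain ⟨E, hE⟩ := (hfg.isNilpotent_iff_le_nilradical).2 h1
  refine ⟨E, fun s hs => ?_⟩
  have h2 := Ideal.pow_le_pow_right (I := Ideal.span (Set.range a)) hs
    (aeval_monomial_mem (k := k) a _ s rfl)
  rw [hE] at h2
  exact h2

variable {k K : Type} [Field k] [Field K] [Algebra k K] {B : Type} [CommRing B] [Algebra k B]
  [Module.Finite k B] {W : ℕ}

/-- **Lines after an extension of the ground field.** -/
theorem inLines_ascent (h : InLines k B W) : InLines K (K ⊗[k] B) W := by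
  classical
  obtain ⟨σ, hσ, a, p, ha, hgen, hM⟩ := h
  let b := Module.finBasis k B
  let f : B →ₐ[k] K ⊗[k] B := Algebra.TensorProduct.includeRight
  have hf : ∀ x, f x = (1 : K) ⊗ₜ[k] x := fun x => rfl
  have hmon : ∀ s : σ →₀ ℕ, aeval (fun v => f (a v)) (monomial s (1 : K)) =
      f (aeval a (monomial s (1 : k))) := by
    intro s
    rw [aeval_monomial, aeval_monomial, map_one, map_one, one_mul, one_mul, Finsupp.prod,
      Finsupp.prod, map_prod]
    refine Finset.prod_congr rfl fun v _ => ?_
    rw [map_pow]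
  have hrepr : ∀ x i, (b.baseChange K).repr (f x) i = algebraMap k K (b.repr x i) := by
    intro x i
    rw [hf, Module.Basis.baseChange_repr_tmul]
    rw [Algebra.smul_def, mul_one]
  obtain ⟨E, hE⟩ := exists_vanish (k := K) (fun v => f (a v)) fun v => (ha v).map f
  refine ⟨σ, hσ, fun v => f (a v), fun w v => algebraMap k K (p w v), fun v => (ha v).map f, ?_,
    fun M hM' => lines_of_coeff (b.baseChange K) _ _ E hE (fun e _ i => ?_) M hM'⟩
  · rw [eq_top_iff]
    rintro x -
    induction x using TensorProduct.induction_on with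
    | zero => exact Subalgebra.zero_mem _
    | tmul c x =>
      have h1 : (c ⊗ₜ[k] x : K ⊗[k] B) = c • f x := by
        rw [hf, TensorProduct.smul_tmul', smul_eq_mul, mul_one]
      rw [h1]
      refine Subalgebra.smul_mem _ ?_ c
      have hx : x ∈ Algebra.adjoin k (Set.range a) := by rw [hgen]; trivial
      have h2 : f x ∈ (Algebra.adjoin k (Set.range a)).map f := ⟨x, hx, rfl⟩
      rw [AlgHom.map_adjoin] at h2
      have h3 : Algebra.adjoin k (f '' Set.range a) ≤
          (Algebra.adjoin K (Set.range fun v => f (a v))).restrictScalars k := by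
        rw [Algebra.adjoin_le_iff]
        rintro _ ⟨_, ⟨v, rfl⟩, rfl⟩
        exact Algebra.subset_adjoin ⟨v, rfl⟩
      exact h3 h2
    | add x y hx hy => exact Subalgebra.add_mem _ hx hy
  · obtain ⟨c, hc⟩ := lines_coeff b a p hM e i
    refine ⟨fun w => algebraMap k K (c w), fun s hs => ?_⟩
    rw [hmon, hrepr, hc s hs, map_sum]
    refine Finset.sum_congr rfl fun w _ => ?_
    rw [map_mul, eval_monomial, eval_monomial, one_mul, one_mul, Finsupp.prod, Finsupp.prod,
      map_prod]
    congr 1
    refine Finset.prod_congr rfl fun v _ => ?_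
    rw [map_pow]

variable [IsAlgClosed k]

/-- **Lines over an algebraically closed subfield.** -/
theorem inLines_descent (h : InLines K (K ⊗[k] B) W) : InLines k B W := by
  classical
  obtain ⟨σ, hσ, a, p, ha, hgen, hM⟩ := h
  have hfσ := Fintype.ofFinite σ
  let b := Module.finBasis k B
  let bK := b.baseChange K
  obtain ⟨E, hE⟩ := exists_vanish (k := K) a ha
  choose c hc using lines_coeff bK a p hM
  have hsurj : ∀ i, ∃ G : MvPolynomial σ K, aeval a G = bK i := by
    intro i
    have h1 : bK i ∈ Algebra.adjoin K (Set.range a) := by rw [hgen]; trivial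
    rw [Algebra.adjoin_range_eq_range_aeval] at h1
    exact h1
  choose G hG using hsurj
  -- the finite set of the parameters
  let T : Set K := (Set.range fun z : σ × Fin (Module.finrank k B) => bK.repr (a z.1) z.2) ∪
    ((Set.range fun z : Fin W × σ => p z.1 z.2) ∪
    ((Set.range fun z : Fin E × Fin (Module.finrank k B) × Fin W => c z.1 z.2.1 z.2.2) ∪
    ⋃ i, (fun s => coeff s (G i)) '' (G i).support))
  have hT : T.Finite := (Set.finite_range _).union ((Set.finite_range _).union
    ((Set.finite_range _).union (Set.finite_iUnion fun i => (Finset.finite_toSet _).image _)))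
  obtain ⟨R, hTR, ⟨ρ⟩⟩ := exists_point (k := k) T hT
  have hα : ∀ v i, bK.repr (a v) i ∈ R := fun v i => hTR (Or.inl ⟨(v, i), rfl⟩)
  have hp : ∀ w v, p w v ∈ R := fun w v => hTR (Or.inr (Or.inl ⟨(w, v), rfl⟩))
  have hcR : ∀ e, e < E → ∀ i w, c e i w ∈ R := fun e he i w =>
    hTR (Or.inr (Or.inr (Or.inl ⟨(⟨e, he⟩, i, w), rfl⟩)))
  have hGR : ∀ i s, coeff s (G i) ∈ R := by
    intro i s
    by_cases hs : s ∈ (G i).support
    · exact hTR (Or.inr (Or.inr (Or.inr (Set.mem_iUnion.2 ⟨i, s, hs, rfl⟩))))
    · rw [notMem_support_iff.1 hs]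
      exact Subalgebra.zero_mem _
  -- the generators over `R`
  let a' : σ → R ⊗[k] B := fun v => ∑ i, (⟨bK.repr (a v) i, hα v i⟩ : R) • (b.baseChange R) i
  have ha' : ∀ v, inc K B R (a' v) = a v := by
    intro v
    change inc K B R (∑ i, (⟨bK.repr (a v) i, hα v i⟩ : R) • (b.baseChange R) i) = a v
    rw [map_sum]
    conv_rhs => rw [← bK.sum_repr (a v)]
    refine Finset.sum_congr rfl fun i _ => ?_
    rw [inc_smul]
    congr 1
    rw [Module.Basis.baseChange_apply, Module.Basis.baseChange_apply]
    rfl
  have hinj := inc_injective (K := K) b R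
  let α : σ → B := fun v => spz B R ρ (a' v)
  let q : Fin W → σ → k := fun w v => ρ ⟨p w v, hp w v⟩
  have hmonK : ∀ s : σ →₀ ℕ, inc K B R (∏ v ∈ s.support, a' v ^ s v) =
      aeval a (monomial s (1 : K)) := by
    intro s
    rw [aeval_monomial, map_one, one_mul, Finsupp.prod, map_prod]
    refine Finset.prod_congr rfl fun v _ => ?_
    rw [map_pow, ha']
  have hmonk : ∀ s : σ →₀ ℕ, spz B R ρ (∏ v ∈ s.support, a' v ^ s v) =
      aeval α (monomial s (1 : k)) := by
    intro s
    rw [aeval_monomial, map_one, one_mul, Finsupp.prod, map_prod]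
    refine Finset.prod_congr rfl fun v _ => ?_
    rw [map_pow]
  refine ⟨σ, hσ, α, q, ?_, ?_, fun M hM' => lines_of_coeff b α q E ?_ ?_ M hM'⟩
  · intro v
    obtain ⟨n, hn⟩ := ha v
    refine ⟨n, ?_⟩
    have h1 : a' v ^ n = 0 := by
      apply hinj
      rw [map_pow, ha', hn, map_zero]
    change spz B R ρ (a' v) ^ n = 0
    rw [← map_pow, h1, map_zero]
  · rw [Algebra.adjoin_range_eq_range_aeval, eq_top_iff]
    rintro x -
    rw [← b.sum_repr x]
    refine Subalgebra.sum_mem _ fun i _ => Subalgebra.smul_mem _ ?_ _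
    -- the polynomial `G i` over `R`
    let y : R ⊗[k] B := ∑ s ∈ (G i).support,
      (⟨coeff s (G i), hGR i s⟩ : R) • ∏ v ∈ s.support, a' v ^ s v
    have h1 : inc K B R y = inc K B R ((b.baseChange R) i) := by
      change inc K B R (∑ s ∈ (G i).support, (⟨coeff s (G i), hGR i s⟩ : R) •
        ∏ v ∈ s.support, a' v ^ s v) = _
      rw [map_sum]
      have h2 : inc K B R ((b.baseChange R) i) = bK i := by
        rw [Module.Basis.baseChange_apply, Module.Basis.baseChange_apply]
        rfl
      rw [h2, ← hG i]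
      conv_rhs => rw [(G i).as_sum, map_sum]
      refine Finset.sum_congr rfl fun s _ => ?_
      rw [inc_smul, hmonK, ← map_smul, smul_monomial, smul_eq_mul, mul_one]
    have h3 := congrArg (spz B R ρ) (hinj h1)
    have h4 : spz B R ρ ((b.baseChange R) i) = b i := by
      rw [Module.Basis.baseChange_apply]
      change ρ 1 • b i = b i
      rw [map_one, one_smul]
    rw [h4] at h3
    rw [← h3]
    change spz B R ρ (∑ s ∈ (G i).support, (⟨coeff s (G i), hGR i s⟩ : R) •
        ∏ v ∈ s.support, a' v ^ s v) ∈ _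
    rw [map_sum]
    refine Subalgebra.sum_mem _ fun s _ => ?_
    rw [spz_smul, hmonk]
    exact Subalgebra.smul_mem _ ((AlgHom.mem_range _).2 ⟨_, rfl⟩) _
  · intro s hs
    rw [← hmonk]
    have h1 : ∏ v ∈ s.support, a' v ^ s v = 0 := by
      apply hinj
      rw [hmonK, hE s hs, map_zero]
    rw [h1, map_zero]
  · intro e he i
    refine ⟨fun w => ρ ⟨c e i w, hcR e he i w⟩, fun s hs => ?_⟩
    rw [← hmonk, repr_spz]
    have h1 : (b.baseChange R).repr (∏ v ∈ s.support, a' v ^ s v) i =
        ∑ w, (⟨c e i w, hcR e he i w⟩ : R) * ∏ v ∈ s.support, (⟨p w v, hp w v⟩ : R) ^ s v := by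
      apply Subtype.ext
      rw [← repr_inc, hmonK]
      have h2 := hc e i s hs
      change bK.repr (aeval a (monomial s (1 : K))) i = _
      rw [h2, AddSubmonoidClass.coe_finsetSum]
      refine Finset.sum_congr rfl fun w _ => ?_
      rw [eval_monomial, one_mul, Finsupp.prod]
      change _ = c e i w * ((∏ v ∈ s.support, (⟨p w v, hp w v⟩ : R) ^ s v : R) : K)
      congr 1
      rw [SubmonoidClass.coe_finsetProd]
      rfl
    rw [h1, map_sum]
    refine Finset.sum_congr rfl fun w _ => ?_
    rw [map_mul, map_prod, eval_monomial, one_mul, Finsupp.prod]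
    congr 1
    refine Finset.prod_congr rfl fun v _ => ?_
    rw [map_pow]

end Pool.Agent.L7h86.GF
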