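import Pool.Agent.L7h86.GF.Dense
import Pool.Agent.L7h86.PS.Main

/-!
# Q1 depends only on the characteristic
-/

set_option autoImplicit false

namespace Pool.Agent.L7h86.GF

open Pool.Agent.H826R3.SM Pool.Agent.TH671.DU Pool.Agent.N86.SQ Pool.Agent.L7h86.PS
open scoped TensorProduct Topology
open MvPolynomial Filter

/-- Q1 holds for all nonempty finite schemes over `k` of degree at most `D`. -/
def QAll (k : Type) [Field k] (D : ℕ) : Prop :=
  ∀ (A : Type) [CommRing A] [Algebra k A] [Module.Finite k A] [Nontrivial A],
    Module.finrank k A ≤ D → QOne k A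

theorem qAll_iff_local (k : Type) [Field k] [IsAlgClosed k] (D : ℕ) :
    QAll k D ↔ ∀ d : ℕ, d ≤ D → ∀ (A : Type) [CommRing A] [Algebra k A] [Module.Finite k A]
      [IsLocalRing A], Module.finrank k A = d → rate k A ≤ d := by
  constructor
  · intro h d hd A _ _ _ _ hA
    have h1 := h A (by omega)
    rw [qOne_iff_rate, hA] at h1
    exact h1.le
  · intro h
    have key : ∀ n : ℕ, ∀ (A : Type) [CommRing A] [Algebra k A] [Module.Finite k A]
        [Nontrivial A], Module.finrank k A = n → n ≤ D → Bound k 1 A := by
      intro n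
      induction n using Nat.strong_induction_on with
      | _ n ih =>
        intro A _ _ _ _ hn hD
        by_cases hloc : IsLocalRing A
        · have h1 := h n hD A hn
          unfold Bound
          rw [Real.rpow_one, hn]
          exact h1
        obtain ⟨B, B', _, _, _, _, hB1, hB2, hB'1, hB'2, ⟨F⟩, hs⟩ := exists_split (k := k) A hloc
        have hp1 : 0 < Module.finrank k B := Module.finrank_pos
        have hp2 : 0 < Module.finrank k B' := Module.finrank_pos
        exact bound_congr F.symm (bound_prod le_rfl (ih _ (by omega) B rfl (by omega))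
          (ih _ (by omega) B' rfl (by omega)))
    intro A _ _ _ _ hA
    exact bound_one.1 (key _ A rfl hA)

/-- **Q1 over an algebraically closed field and over an algebraically closed subfield.** -/
theorem qAll_iff (k K : Type) [Field k] [IsAlgClosed k] [Field K] [IsAlgClosed K] [Algebra k K]
    (D : ℕ) : QAll k D ↔ QAll K D := by
  rw [qAll_iff_local, qAll_iff_local]
  exact forall_congr' fun d => forall_congr' fun _ => bounds_iff k K d d

/-- **Q1 depends only on the characteristic.** -/
theorem qAll_char (K L : Type) [Field K] [IsAlgClosed K] [Field L] [IsAlgClosed L] (p : ℕ)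
    [CharP K p] [CharP L p] (D : ℕ) : QAll K D ↔ QAll L D := by
  rcases CharP.char_is_prime_or_zero K p with hp | rfl
  · have : Fact p.Prime := ⟨hp⟩
    let _ : Algebra (ZMod p) K := ZMod.algebra K p
    let _ : Algebra (ZMod p) L := ZMod.algebra L p
    let _ : Algebra (AlgebraicClosure (ZMod p)) K :=
      (IsAlgClosed.lift : AlgebraicClosure (ZMod p) →ₐ[ZMod p] K).toRingHom.toAlgebra
    let _ : Algebra (AlgebraicClosure (ZMod p)) L :=
      (IsAlgClosed.lift : AlgebraicClosure (ZMod p) →ₐ[ZMod p] L).toRingHom.toAlgebra
    exact (qAll_iff (AlgebraicClosure (ZMod p)) K D).symm.trans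
      (qAll_iff (AlgebraicClosure (ZMod p)) L D)
  · have : CharZero K := CharP.charP_to_charZero K
    have : CharZero L := CharP.charP_to_charZero L
    have : Algebra.IsAlgebraic ℚ (AlgebraicClosure ℚ) := by
      have h := AlgebraicClosure.isAlgebraic ℚ
      convert h
      · rfl
      · exact Subsingleton.elim _ _
    let _ : Algebra (AlgebraicClosure ℚ) K :=
      (IsAlgClosed.lift : AlgebraicClosure ℚ →ₐ[ℚ] K).toRingHom.toAlgebra
    let _ : Algebra (AlgebraicClosure ℚ) L :=
      (IsAlgClosed.lift : AlgebraicClosure ℚ →ₐ[ℚ] L).toRingHom.toAlgebra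
    exact (qAll_iff (AlgebraicClosure ℚ) K D).symm.trans (qAll_iff (AlgebraicClosure ℚ) L D)

theorem qOne_baseChange (k K : Type) [Field k] [IsAlgClosed k] [Field K] [IsAlgClosed K]
    [Algebra k K] (A : Type) [CommRing A] [Algebra k A] [Module.Finite k A] [IsLocalRing A] :
    QOne K (K ⊗[k] A) ↔ QOne k A := by
  have := local_baseChange (k := k) (K := K) A
  rw [qOne_iff_rate, qOne_iff_rate, rate_eq_baseChange, Module.finrank_baseChange]

end Pool.Agent.L7h86.GF
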