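import Pool.Agent.L7h86.GF.Lines

/-!
# Growth rates after an extension of the ground field
-/

set_option autoImplicit false

namespace Pool.Agent.L7h86.GF

open Pool.Agent.H826R3.SM Pool.Agent.TH671.DU Pool.Agent.N86.SQ Pool.Agent.L7h86.PS
open scoped TensorProduct Topology
open MvPolynomial Filter

/-- an algebra all of whose elements are sums of scalars and nilpotent elements is local -/
theorem local_of_scalar {F E : Type} [Field F] [CommRing E] [Algebra F E] [Nontrivial E]
    (h : ∀ x : E, ∃ c : F, IsNilpotent (x - algebraMap F E c)) : IsLocalRing E := by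
  refine IsLocalRing.of_isUnit_or_isUnit_one_sub_self fun x => ?_
  obtain ⟨c, hc⟩ := h x
  by_cases h0 : c = 0
  · right
    rw [h0, map_zero, sub_zero] at hc
    exact hc.isUnit_one_sub
  · left
    have h1 : IsUnit (algebraMap F E c) := (isUnit_iff_ne_zero.2 h0).map (algebraMap F E)
    have h2 : x = algebraMap F E c + (x - algebraMap F E c) := by ring
    rw [h2]
    exact hc.isUnit_add_left_of_commute h1 (Commute.all _ _)

/-- the elements of a local algebra over an algebraically closed field -/
theorem scalar_of_local {F E : Type} [Field F] [IsAlgClosed F] [CommRing E] [Algebra F E]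
    [Module.Finite F E] [IsLocalRing E] (x : E) : ∃ c : F, IsNilpotent (x - algebraMap F E c) := by
  have hart : IsArtinianRing E := IsArtinianRing.of_finite F E
  set M := IsLocalRing.maximalIdeal E
  let _ : Field (E ⧸ M) := Ideal.Quotient.field M
  have hbij : Function.Bijective (algebraMap F (E ⧸ M)) :=
    IsAlgClosed.algebraMap_bijective_of_isIntegral
  obtain ⟨c, hc⟩ := hbij.2 (Ideal.Quotient.mk M x)
  refine ⟨c, ?_⟩
  have h1 : x - algebraMap F E c ∈ M := by
    rw [← Ideal.Quotient.eq, ← hc]
    rfl
  obtain ⟨e, he⟩ : ∃ e, M ^ e = ⊥ := by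
    have h1 := IsArtinianRing.isNilpotent_jacobson_bot (R := E)
    rw [IsLocalRing.jacobson_eq_maximalIdeal ⊥ bot_ne_top] at h1
    exact h1
  refine ⟨e, ?_⟩
  have h2 := Ideal.pow_mem_pow h1 e
  rwa [he, Ideal.mem_bot] at h2

variable {k K : Type} [Field k] [IsAlgClosed k] [Field K] [Algebra k K]

theorem local_baseChange (A : Type) [CommRing A] [Algebra k A] [Module.Finite k A]
    [IsLocalRing A] : IsLocalRing (K ⊗[k] A) := by
  have hnt := nontrivial_baseChange k K A
  refine local_of_scalar (F := K) fun x => ?_
  have key : ∀ x : K ⊗[k] A, ∃ c : K, x - algebraMap K _ c ∈ nilradical (K ⊗[k] A) := by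
    intro x
    induction x using TensorProduct.induction_on with
    | zero => exact ⟨0, by rw [map_zero, sub_zero]; exact Ideal.zero_mem _⟩
    | tmul r x =>
      obtain ⟨c, hc⟩ := scalar_of_local (F := k) x
      refine ⟨r * algebraMap k K c, ?_⟩
      have h1 : (r ⊗ₜ[k] x : K ⊗[k] A) - algebraMap K _ (r * algebraMap k K c) =
          r • (Algebra.TensorProduct.includeRight (R := k) (A := K)
            (x - algebraMap k A c)) := by
        change _ = r • ((1 : K) ⊗ₜ[k] (x - algebraMap k A c))
        rw [TensorProduct.tmul_sub, smul_sub, TensorProduct.smul_tmul', TensorProduct.smul_tmul',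
          smul_eq_mul, mul_one, Algebra.TensorProduct.algebraMap_apply, Algebra.algebraMap_self,
          RingHom.id_apply]
        congr 1
        rw [show algebraMap k A c = c • (1 : A) from Algebra.algebraMap_eq_smul_one c,
          ← TensorProduct.smul_tmul, Algebra.smul_def c r, mul_comm]
      rw [h1]
      exact ((nilradical (K ⊗[k] A)).restrictScalars K).smul_mem r
        (hc.map (Algebra.TensorProduct.includeRight (R := k) (A := K)))
    | add x y hx hy =>
      obtain ⟨c, hc⟩ := hx
      obtain ⟨c', hc'⟩ := hy
      refine ⟨c + c', ?_⟩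
      have h1 : x + y - algebraMap K (K ⊗[k] A) (c + c') =
          (x - algebraMap K _ c) + (y - algebraMap K _ c') := by
        rw [map_add]
        ring
      rw [h1]
      exact Ideal.add_mem _ hc hc'
  exact key x

variable [IsAlgClosed K]

/-- the powers of a base change are the base changes of the powers -/
theorem exists_powEquiv (A : Type) [CommRing A] [Algebra k A] [Module.Finite k A] (n : ℕ) :
    Nonempty ((K ⊗[k] Pow k A n) ≃ₐ[K] Pow K (K ⊗[k] A) n) := by
  obtain ⟨f, hf⟩ := pow_baseChange (k := k) (K := K) (B := A) n
  have hd : Module.finrank K (K ⊗[k] Pow k A n) = Module.finrank K (Pow K (K ⊗[k] A) n) := by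
    rw [Module.finrank_baseChange, finrank_Pow', finrank_Pow', Module.finrank_baseChange]
  exact ⟨AlgEquiv.ofBijective f ⟨(LinearMap.injective_iff_surjective_of_finrank_eq_finrank
    (f := f.toLinearMap) hd).2 hf, hf⟩⟩

/-- **The numbers of lines do not change under extensions of the ground field.** -/
theorem inLines_iff (A : Type) [CommRing A] [Algebra k A] [Module.Finite k A] (n W : ℕ) :
    InLines K (Pow K (K ⊗[k] A) n) W ↔ InLines k (Pow k A n) W := by
  obtain ⟨e⟩ := exists_powEquiv (k := k) (K := K) A n
  constructor
  · intro h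
    exact inLines_descent (h.of_surjective e.symm.toAlgHom e.symm.surjective)
  · intro h
    exact (inLines_ascent (K := K) h).of_surjective e.toAlgHom e.surjective

theorem lineNumber_eq (A : Type) [CommRing A] [Algebra k A] [Module.Finite k A] (n : ℕ) :
    lineNumber K (Pow K (K ⊗[k] A) n) = lineNumber k (Pow k A n) := by
  unfold lineNumber
  congr 1
  ext W
  exact inLines_iff A n W

/-- **The growth rate does not change under extensions of the ground field.** -/
theorem rate_eq_baseChange (A : Type) [CommRing A] [Algebra k A] [Module.Finite k A]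
    [IsLocalRing A] : rate K (K ⊗[k] A) = rate k A := by
  have := local_baseChange (k := k) (K := K) A
  have h1 := lineNumber_tendsto (k := K) (K ⊗[k] A)
  simp only [lineNumber_eq] at h1
  exact tendsto_nhds_unique h1 (lineNumber_tendsto (k := k) A)

end Pool.Agent.L7h86.GF
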