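import Pool.Agent.N86.SQ.BaseCh
import Pool.Agent.N86.SQ.LineRate
import Pool.Agent.L7h86.PS.Red

/-!
# Specialization of algebras to the ground field
-/

set_option autoImplicit false

namespace Pool.Agent.L7h86.GF

open Pool.Agent.H826R3.SM Pool.Agent.TH671.DU Pool.Agent.N86.SQ Pool.Agent.L7h86.PS
open scoped TensorProduct
open MvPolynomial

theorem exists_algHom (k R : Type) [Field k] [IsAlgClosed k] [CommRing R] [Algebra k R]
    [Nontrivial R] [Algebra.FiniteType k R] : Nonempty (R →ₐ[k] k) := by
  obtain ⟨M, hM⟩ := Ideal.exists_maximal R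
  let _ : Field (R ⧸ M) := Ideal.Quotient.field M
  have : Module.Finite k (R ⧸ M) := finite_of_finite_type_of_isJacobsonRing k (R ⧸ M)
  have hbij : Function.Bijective (algebraMap k (R ⧸ M)) :=
    IsAlgClosed.algebraMap_bijective_of_isIntegral
  let e : k ≃ₐ[k] (R ⧸ M) := AlgEquiv.ofBijective (Algebra.ofId k (R ⧸ M)) hbij
  exact ⟨e.symm.toAlgHom.comp (Ideal.Quotient.mkₐ k M)⟩

/-- finitely many elements of an extension field lie in a subalgebra with a point over the ground
field -/
theorem exists_point {k K : Type} [Field k] [IsAlgClosed k] [Field K] [Algebra k K] (T : Set K)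
    (hT : T.Finite) : ∃ R : Subalgebra k K, T ⊆ R ∧ Nonempty (R →ₐ[k] k) := by
  refine ⟨Algebra.adjoin k T, Algebra.subset_adjoin, ?_⟩
  have : Algebra.FiniteType k (Algebra.adjoin k T) := by
    rw [← Subalgebra.fg_iff_finiteType]
    exact Subalgebra.fg_def.2 ⟨T, hT, rfl⟩
  exact exists_algHom k _

section lift

variable {k K : Type} [Field k] [Field K] [Algebra k K] {B : Type} [CommRing B] [Algebra k B]
  {D : ℕ} (b : Module.Basis (Fin D) k B) (R : Subalgebra k K) (ρ : R →ₐ[k] k)

/-- the inclusion -/
noncomputable def inc (K B : Type) [Field K] [Algebra k K] [CommRing B] [Algebra k B]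
    (R : Subalgebra k K) : (R ⊗[k] B) →ₐ[k] (K ⊗[k] B) :=
  Algebra.TensorProduct.map R.val (AlgHom.id k B)

/-- the specialization -/
noncomputable def spz (B : Type) [CommRing B] [Algebra k B] (R : Subalgebra k K) (ρ : R →ₐ[k] k) :
    (R ⊗[k] B) →ₐ[k] B :=
  (Algebra.TensorProduct.lid k B).toAlgHom.comp (Algebra.TensorProduct.map ρ (AlgHom.id k B))

theorem inc_smul (r : R) (x : R ⊗[k] B) : inc K B R (r • x) = (r : K) • inc K B R x := by
  induction x using TensorProduct.induction_on with
  | zero => rw [smul_zero, map_zero, smul_zero]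
  | tmul s y => rfl
  | add x y hx hy => rw [smul_add, map_add, hx, hy, map_add, smul_add]

theorem spz_smul (r : R) (x : R ⊗[k] B) : spz B R ρ (r • x) = ρ r • spz B R ρ x := by
  induction x using TensorProduct.induction_on with
  | zero => rw [smul_zero, map_zero, smul_zero]
  | tmul s y =>
    change ρ (r * s) • y = ρ r • (ρ s • y)
    rw [map_mul, mul_smul]
  | add x y hx hy => rw [smul_add, map_add, hx, hy, map_add, smul_add]

theorem repr_inc (x : R ⊗[k] B) (i : Fin D) :
    (b.baseChange K).repr (inc K B R x) i = ((b.baseChange R).repr x i : K) := by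
  conv_lhs => rw [← (b.baseChange R).sum_repr x, map_sum, map_sum]
  rw [Finsupp.finsetSum_apply]
  have h1 : ∀ j, (b.baseChange K).repr (inc K B R ((b.baseChange R).repr x j •
      (b.baseChange R) j)) i = if i = j then ((b.baseChange R).repr x j : K) else 0 := by
    intro j
    rw [inc_smul, map_smul, Finsupp.smul_apply]
    have h2 : inc K B R ((b.baseChange R) j) = (b.baseChange K) j := by
      rw [Module.Basis.baseChange_apply, Module.Basis.baseChange_apply]
      rfl
    rw [h2, Module.Basis.repr_self, Finsupp.single_apply, smul_eq_mul]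
    by_cases h : i = j
    · rw [if_pos h, if_pos h.symm, mul_one]
    · rw [if_neg h, if_neg (fun h' => h h'.symm), mul_zero]
  simp only [h1]
  rw [Finset.sum_ite_eq Finset.univ i, if_pos (Finset.mem_univ _)]

theorem repr_spz (x : R ⊗[k] B) (i : Fin D) :
    b.repr (spz B R ρ x) i = ρ ((b.baseChange R).repr x i) := by
  conv_lhs => rw [← (b.baseChange R).sum_repr x, map_sum, map_sum]
  rw [Finsupp.finsetSum_apply]
  have h1 : ∀ j, b.repr (spz B R ρ ((b.baseChange R).repr x j •
      (b.baseChange R) j)) i = if i = j then ρ ((b.baseChange R).repr x j) else 0 := by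
    intro j
    rw [spz_smul, map_smul, Finsupp.smul_apply]
    have h2 : spz B R ρ ((b.baseChange R) j) = b j := by
      rw [Module.Basis.baseChange_apply]
      change ρ 1 • b j = b j
      rw [map_one, one_smul]
    rw [h2, Module.Basis.repr_self, Finsupp.single_apply, smul_eq_mul]
    by_cases h : i = j
    · rw [if_pos h, if_pos h.symm, mul_one]
    · rw [if_neg h, if_neg (fun h' => h h'.symm), mul_zero]
  simp only [h1]
  rw [Finset.sum_ite_eq Finset.univ i, if_pos (Finset.mem_univ _)]

include b in
theorem inc_injective : Function.Injective (inc K B R) := by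
  intro x y hxy
  apply (b.baseChange R).repr.injective
  ext i
  have h1 := repr_inc b R x i
  rw [hxy, repr_inc] at h1
  exact h1.symm

end lift

end Pool.Agent.L7h86.GF
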